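import Mathlib

set_option autoImplicit false

namespace Pool.Agent.H735R3

open Finset

/-- `D` is a generalized Hadamard matrix of index `lam` over the additive group `A`. -/
def IsGH {R C A : Type*} [Fintype C] [AddGroup A] [DecidableEq A]
    (lam : ℕ) (D : R → C → A) : Prop :=
  ∀ i j : R, i ≠ j → ∀ g : A, (univ.filter (fun k : C => D i k - D j k = g)).card = lam

/-- the shape of the frozen statement for one value of `s` -/
def Goal (s : ℕ) : Prop :=
  ∃ (G : Type) (_ : Group G) (_ : Fintype G) (_ : DecidableEq G),
    Fintype.card G = s ∧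
    ∃ D : Fin (s * 8) → Fin (s * 8) → G,
      ∀ i j : Fin (s * 8), i ≠ j → ∀ g : G,
        (Finset.univ.filter (fun k : Fin (s * 8) => D i k * (D j k)⁻¹ = g)).card = 8

theorem goal_of_isGH {s : ℕ} {A : Type} [AddGroup A] [Fintype A] [DecidableEq A]
    (hA : Fintype.card A = s) {R C : Type*} [Fintype R] [Fintype C]
    (hR : Fintype.card R = s * 8) (hC : Fintype.card C = s * 8) (D : R → C → A)
    (h : IsGH 8 D) : Goal s := by
  classical
  refine ⟨Multiplicative A, inferInstance, inferInstance, inferInstance, ?_, ?_⟩
  · rw [Fintype.card_multiplicative]; exact hA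
  · have eR : Fin (s * 8) ≃ R := (Fintype.equivFinOfCardEq hR).symm
    have eC : Fin (s * 8) ≃ C := (Fintype.equivFinOfCardEq hC).symm
    refine ⟨fun i k => Multiplicative.ofAdd (D (eR i) (eC k)), ?_⟩
    intro i j hij g
    have h1 := h (eR i) (eR j) (fun hh => hij (eR.injective hh)) (Multiplicative.toAdd g)
    refine Eq.trans (Finset.card_bij (fun k _ => eC k) ?_ ?_ ?_) h1
    · intro k hk
      simp only [Finset.mem_filter, Finset.mem_univ, true_and] at hk ⊢
      rw [← hk]
      simp [sub_eq_add_neg]
    · intro a _ b _ hab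
      exact eC.injective hab
    · intro b hb
      refine ⟨eC.symm b, ?_, by simp⟩
      simp only [Finset.mem_filter, Finset.mem_univ, true_and, Equiv.apply_symm_apply] at hb ⊢
      rw [← ofAdd_toAdd g, ← hb, sub_eq_add_neg, ofAdd_add, ofAdd_neg]

/-- fibres of an additive surjection of finite groups all have the same size -/
theorem card_fiber_eq {K A : Type*} [AddGroup K] [Fintype K] [AddGroup A] [Fintype A]
    [DecidableEq A] (f : K →+ A) (hf : Function.Surjective f) (g : A) (lam : ℕ)
    (hc : Fintype.card K = Fintype.card A * lam) :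
    (univ.filter (fun k : K => f k = g)).card = lam := by
  classical
  have hconst : ∀ g : A, (univ.filter (fun k : K => f k = g)).card =
      (univ.filter (fun k : K => f k = 0)).card := by
    intro g
    obtain ⟨k0, hk0⟩ := hf g
    refine Finset.card_bij (fun k _ => k - k0) ?_ ?_ ?_
    · intro k hk
      simp only [Finset.mem_filter, Finset.mem_univ, true_and] at hk ⊢
      rw [map_sub, hk, hk0, sub_self]
    · intro a _ b _ hab
      exact sub_left_injective hab
    · intro b hb
      refine ⟨b + k0, ?_, by simp⟩
      simp only [Finset.mem_filter, Finset.mem_univ, true_and] at hb ⊢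
      rw [map_add, hb, hk0, zero_add]
  have hsum : Fintype.card K = ∑ g : A, (univ.filter (fun k : K => f k = g)).card := by
    rw [← Finset.card_univ, Finset.card_eq_sum_card_fiberwise (f := f) (t := univ)]
    intro x _; simp
  have h2 : Fintype.card K = Fintype.card A * (univ.filter (fun k : K => f k = 0)).card := by
    rw [hsum, Finset.sum_congr rfl (fun g _ => hconst g), Finset.sum_const, Finset.card_univ,
      smul_eq_mul]
  have hpos : 0 < Fintype.card A := Fintype.card_pos_iff.2 ⟨g⟩
  rw [hconst g]
  have := h2.symm.trans hc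
  exact Nat.eq_of_mul_eq_mul_left hpos this

/-- Drake: powers of two -/
theorem goal_two_pow (k : ℕ) : Goal (2 ^ k) := by
  classical
  have : Fact (Nat.Prime 2) := ⟨Nat.prime_two⟩
  let K := GaloisField 2 (k + 3)
  have : Finite K := inferInstance
  letI : Fintype K := Fintype.ofFinite K
  have hK : Fintype.card K = 2 ^ (k + 3) := by
    rw [← Nat.card_eq_fintype_card]; exact GaloisField.card 2 (k + 3) (by omega)
  have hfr : Module.finrank (ZMod 2) K = k + 3 := GaloisField.finrank 2 (by omega)
  let e : K ≃ₗ[ZMod 2] (Fin (k + 3) → ZMod 2) :=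
    (Module.finBasisOfFinrankEq (ZMod 2) K hfr).equivFun
  let A := Fin k → ZMod 2
  let f : K →+ A :=
    { toFun := fun x i => e x (Fin.castAdd 3 i)
      map_zero' := by ext i; simp; rfl
      map_add' := by intro x y; ext i; simp; rfl }
  have hf : Function.Surjective f := by
    intro a
    refine ⟨e.symm (fun i => if h : i.1 < k then a ⟨i.1, h⟩ else 0), ?_⟩
    ext i
    change e (e.symm _) (Fin.castAdd 3 i) = a i
    rw [LinearEquiv.apply_symm_apply]
    simp
  have hA : Fintype.card A = 2 ^ k := by simp [A]
  refine goal_of_isGH (A := A) hA (R := K) (C := K) (by rw [hK, pow_add]; norm_num)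
    (by rw [hK, pow_add]; norm_num) (fun x y => f (x * y)) ?_
  intro x y hxy g
  have hne : x - y ≠ 0 := sub_ne_zero.2 hxy
  have h1 : (univ.filter (fun c : K => f (x * c) - f (y * c) = g)).card
      = (univ.filter (fun c : K => f c = g)).card := by
    refine Finset.card_bij (fun c _ => (x - y) * c) ?_ ?_ ?_
    · intro c hc
      simp only [Finset.mem_filter, Finset.mem_univ, true_and] at hc ⊢
      rw [sub_mul, map_sub, hc]
    · intro a _ b _ hab
      exact mul_left_cancel₀ hne hab
    · intro b hb
      refine ⟨(x - y)⁻¹ * b, ?_, by rw [mul_inv_cancel_left₀ hne]⟩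
      simp only [Finset.mem_filter, Finset.mem_univ, true_and] at hb ⊢
      rw [← map_sub, ← sub_mul, mul_inv_cancel_left₀ hne, hb]
  rw [h1]
  exact card_fiber_eq f hf g 8 (by rw [hK, hA, pow_add]; norm_num)

end Pool.Agent.H735R3
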