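import Mathlib
import Pool.Agent.H735R3.Basic

set_option autoImplicit false

namespace Pool.Agent.H735R3

open Finset

/-- hexadecimal digit -/
def dig (a k : ℕ) : ℕ := (a >>> (4 * k)) &&& 15

/-- packed counters of the difference codes -/
def cnt (code : ℕ → ℕ → ℕ) (a b : ℕ) : ℕ → ℕ
  | 0 => 0
  | k + 1 => cnt code a b k + 256 ^ (code (dig a k) (dig b k))

def allP (P : ℕ → ℕ → Bool) : List ℕ → Bool
  | [] => true
  | a :: l => l.all (P a) && allP P l

def allDig (q n : ℕ) (l : List ℕ) : Bool :=
  l.all (fun a => (List.range n).all (fun k => decide (dig a k < q)))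

theorem cnt_eq (code : ℕ → ℕ → ℕ) (a b : ℕ) (n : ℕ) :
    cnt code a b n = ∑ k ∈ range n, 256 ^ (code (dig a k) (dig b k)) := by
  induction n with
  | zero => rfl
  | succ n ih => rw [Finset.sum_range_succ, ← ih]; rfl

theorem allP_get (P : ℕ → ℕ → Bool) (l : List ℕ) (h : allP P l = true) :
    ∀ i j : ℕ, i < j → ∀ hj : j < l.length, ∀ hi : i < l.length, P (l[i]) (l[j]) = true := by
  induction l with
  | nil => intro i j _ hj; simp at hj
  | cons a l ih =>
    unfold allP at h
    rw [Bool.and_eq_true] at h
    intro i j hij hj hi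
    cases j with
    | zero => omega
    | succ j =>
      cases i with
      | zero =>
        simp only [List.getElem_cons_zero, List.getElem_cons_succ]
        exact List.all_eq_true.1 h.1 _ (List.getElem_mem _)
      | succ i =>
        simp only [List.getElem_cons_succ]
        exact ih h.2 i j (by omega) (by simpa using hj) (by simpa using hi)

theorem sum_lt_pow (c : ℕ → ℕ) (hc : ∀ v, c v < 256) (q : ℕ) :
    ∑ v ∈ range q, c v * 256 ^ v < 256 ^ q := by
  induction q with
  | zero => simp
  | succ q ih =>
    rw [Finset.sum_range_succ, pow_succ]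
    have := hc q
    have hpos : 0 < 256 ^ q := Nat.pos_of_ne_zero (by positivity)
    have h2 : (c q + 1) * 256 ^ q ≤ 256 * 256 ^ q := Nat.mul_le_mul_right _ this
    rw [add_mul, one_mul] at h2
    linarith

theorem digits_unique (c d : ℕ → ℕ) (hc : ∀ v, c v < 256) (hd : ∀ v, d v < 256) (q : ℕ)
    (h : ∑ v ∈ range q, c v * 256 ^ v = ∑ v ∈ range q, d v * 256 ^ v) :
    ∀ v, v < q → c v = d v := by
  induction q with
  | zero => intro v hv; omega
  | succ q ih =>
    rw [Finset.sum_range_succ, Finset.sum_range_succ] at h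
    have h1 := sum_lt_pow c hc q
    have h2 := sum_lt_pow d hd q
    have hpos : 0 < 256 ^ q := Nat.pos_of_ne_zero (by positivity)
    have h3 : c q = d q := by
      rcases lt_trichotomy (c q) (d q) with h4 | h4 | h4
      · exfalso
        have : (c q + 1) * 256 ^ q ≤ d q * 256 ^ q := Nat.mul_le_mul_right _ h4
        rw [add_mul, one_mul] at this
        have z1 := Nat.zero_le (∑ v ∈ range q, d v * 256 ^ v)
        have z2 := Nat.zero_le (∑ v ∈ range q, c v * 256 ^ v)
        linarith
      · exact h4
      · exfalso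
        have : (d q + 1) * 256 ^ q ≤ c q * 256 ^ q := Nat.mul_le_mul_right _ h4
        rw [add_mul, one_mul] at this
        have z1 := Nat.zero_le (∑ v ∈ range q, d v * 256 ^ v)
        have z2 := Nat.zero_le (∑ v ∈ range q, c v * 256 ^ v)
        linarith
    rw [h3] at h
    have h4 := Nat.add_right_cancel h
    intro v hv
    rcases Nat.lt_succ_iff_lt_or_eq.1 hv with hv | hv
    · exact ih h4 v hv
    · rw [hv]; exact h3

/-- from the check to the matrix -/
theorem isGH_of_check {G : Type} [AddCommGroup G] [DecidableEq G] (q n : ℕ) (hn : n < 256)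
    (emb : ℕ → G) (code : ℕ → ℕ → ℕ)
    (hlt : ∀ a, a < q → ∀ b, b < q → code a b < q)
    (hcode : ∀ a, a < q → ∀ b, b < q → emb a - emb b = emb (code a b))
    (hsurj : ∀ g : G, ∃ v, v < q ∧ emb v = g)
    (hinj : ∀ a, a < q → ∀ b, b < q → emb a = emb b → a = b)
    (rows : List ℕ) (hlen : rows.length = n) (hdig : allDig q n rows = true)
    (hchk : allP (fun a b => decide (cnt code a b n = ∑ v ∈ range q, 8 * 256 ^ v)) rows = true) :
    IsGH 8 (fun (i j : Fin n) => emb (dig (rows[i.1]'(by rw [hlen]; exact i.2)) j.1)) := by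
  have hd : ∀ i : Fin n, ∀ k, k < n → dig (rows[i.1]'(by rw [hlen]; exact i.2)) k < q := by
    intro i k hk
    have h1 := List.all_eq_true.1 hdig _
      (List.getElem_mem (l := rows) (n := i.1) (by rw [hlen]; exact i.2))
    have h2 := List.all_eq_true.1 h1 k (List.mem_range.2 hk)
    exact of_decide_eq_true h2
  have key : ∀ i j : Fin n, i < j → ∀ g : G, (univ.filter (fun k : Fin n =>
      emb (dig (rows[i.1]'(by rw [hlen]; exact i.2)) k.1)
        - emb (dig (rows[j.1]'(by rw [hlen]; exact j.2)) k.1) = g)).card = 8 := by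
    intro i j hij g
    obtain ⟨v, hv, rfl⟩ := hsurj g
    have h1 := of_decide_eq_true (allP_get _ rows hchk i.1 j.1 hij
      (by rw [hlen]; exact j.2) (by rw [hlen]; exact i.2))
    rw [cnt_eq] at h1
    set a := rows[i.1]'(by rw [hlen]; exact i.2) with ha
    set b := rows[j.1]'(by rw [hlen]; exact j.2) with hb
    have h2 : ∑ k ∈ range n, 256 ^ (code (dig a k) (dig b k))
        = ∑ v ∈ range q, ((range n).filter (fun k => code (dig a k) (dig b k) = v)).card
          * 256 ^ v := by
      rw [← Finset.sum_fiberwise_of_maps_to (s := range n) (t := range q)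
        (g := fun k => code (dig a k) (dig b k))]
      · refine Finset.sum_congr rfl fun v _ => ?_
        rw [Finset.sum_congr rfl (g := fun _ => 256 ^ v)
          (fun k hk => by rw [(Finset.mem_filter.1 hk).2])]
        rw [Finset.sum_const, smul_eq_mul]
      · intro k hk
        rw [Finset.mem_range] at hk ⊢
        exact hlt _ (hd i k hk) _ (hd j k hk)
    rw [h2] at h1
    have h3 := digits_unique
      (fun v => ((range n).filter (fun k => code (dig a k) (dig b k) = v)).card) (fun _ => 8)
      (fun v => lt_of_le_of_lt (Finset.card_filter_le _ _) (by rw [Finset.card_range]; exact hn))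
      (fun _ => by norm_num) q h1 v hv
    have h3' : ((range n).filter (fun k => code (dig a k) (dig b k) = v)).card = 8 := h3
    rw [← h3']
    refine Finset.card_bij (fun k _ => k.1) ?_ ?_ ?_
    · intro k hk
      rw [Finset.mem_filter] at hk ⊢
      refine ⟨Finset.mem_range.2 k.2, ?_⟩
      have h4 := hk.2
      rw [hcode _ (hd i k.1 k.2) _ (hd j k.1 k.2)] at h4
      exact hinj _ (hlt _ (hd i k.1 k.2) _ (hd j k.1 k.2)) _ hv h4
    · intro k _ k' _ hkk
      exact Fin.ext hkk
    · intro k hk
      rw [Finset.mem_filter, Finset.mem_range] at hk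
      refine ⟨⟨k, hk.1⟩, ?_, rfl⟩
      rw [Finset.mem_filter]
      refine ⟨Finset.mem_univ _, ?_⟩
      simp only
      rw [hcode _ (hd i k hk.1) _ (hd j k hk.1), hk.2]
  intro i j hij g
  rcases lt_or_gt_of_ne hij with h | h
  · exact key i j h g
  · rw [← key j i h (-g)]
    congr 1
    ext k
    simp only [Finset.mem_filter, Finset.mem_univ, true_and]
    constructor
    · intro h5; rw [← h5]; abel
    · intro h5
      have : emb (dig (rows[i.1]'(by rw [hlen]; exact i.2)) k.1)
          - emb (dig (rows[j.1]'(by rw [hlen]; exact j.2)) k.1)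
          = - (emb (dig (rows[j.1]'(by rw [hlen]; exact j.2)) k.1)
          - emb (dig (rows[i.1]'(by rw [hlen]; exact i.2)) k.1)) := by abel
      rw [this, h5, neg_neg]

end Pool.Agent.H735R3
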