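import Mathlib
import Pool.Agent.H735R3.Basic

set_option autoImplicit false

namespace Pool.Agent.H735R3

open Finset Matrix

variable {F : Type} [Field F] [Fintype F] [DecidableEq F]

/-- number of solutions of `C (y - y0)^2 + K = g` -/
theorem card_quad (hF : ringChar F ≠ 2) {C : F} (K y0 : F) (hC : C ≠ 0) (g : F) :
    ((univ.filter (fun y : F => C * (y - y0) ^ 2 + K = g)).card : ℤ)
      = 1 + quadraticChar F C * quadraticChar F (g - K) := by
  classical
  have h1 := quadraticChar_card_sqrts hF ((g - K) * C)
  have h2 : (univ.filter (fun y : F => C * (y - y0) ^ 2 + K = g)).card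
      = ({x : F | x ^ 2 = (g - K) * C}.toFinset).card := by
    refine Finset.card_bij (fun y _ => C * (y - y0)) ?_ ?_ ?_
    · intro y hy
      simp only [Finset.mem_filter, Finset.mem_univ, true_and, Set.mem_toFinset,
        Set.mem_ofPred_eq] at hy ⊢
      rw [← hy]; ring
    · intro a _ b _ hab
      have := mul_left_cancel₀ hC hab
      exact sub_left_injective this
    · intro b hb
      simp only [Set.mem_toFinset, Set.mem_ofPred_eq] at hb
      refine ⟨b / C + y0, ?_, ?_⟩
      · simp only [Finset.mem_filter, Finset.mem_univ, true_and]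
        have : C * (b / C + y0 - y0) ^ 2 = b ^ 2 / C := by
          field_simp
          ring
        rw [this, hb]
        field_simp
        ring
      · field_simp
        ring
  rw [h2, h1, map_mul]
  ring

/-- number of solutions of a linear equation -/
theorem card_lin {a : F} (b : F) (ha : a ≠ 0) (g : F) :
    (univ.filter (fun y : F => a * y + b = g)).card = 1 := by
  rw [Finset.card_eq_one]
  refine ⟨(g - b) / a, ?_⟩
  ext y
  simp only [Finset.mem_filter, Finset.mem_univ, true_and, Finset.mem_singleton]
  constructor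
  · intro h
    rw [← h]
    field_simp
    ring
  · intro h
    rw [h]
    field_simp
    ring

/-- the quadratic form attached to a matrix -/
def qform (A B D : F) (x y : F) : F := (D * x ^ 2 - 2 * x * y + A * y ^ 2) / (2 * B)

omit [Fintype F] [DecidableEq F] in
theorem qform_sub (h2 : (2 : F) ≠ 0) {p q r t a b c d : F} (hS : p * t - q * r = 1)
    (hT : a * d - b * c = 1) (hq : q ≠ 0) (hb : b ≠ 0) (hB : p * b + q * d ≠ 0) (x x' y : F) :
    qform (p * a + q * c) (p * b + q * d) (r * b + t * d) x y - qform a b d x' y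
      = -q / (2 * (p * b + q * d) * b) * (y - (x' * (p * b + q * d) - x * b) / q) ^ 2
        + qform p q t x x' := by
  have hr : r = (p * t - 1) / q := by
    field_simp
    linear_combination -hS
  have hc : c = (a * d - 1) / b := by
    field_simp
    linear_combination -hT
  subst hr hc
  unfold qform
  field_simp
  ring

/-- entries of the form attached to an element of `SL(2,F)` -/
def sform (T : SpecialLinearGroup (Fin 2) F) (x y : F) : F := qform (T 0 0) (T 0 1) (T 1 1) x y

omit [Fintype F] [DecidableEq F] in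
theorem sl_det (T : SpecialLinearGroup (Fin 2) F) : T 0 0 * T 1 1 - T 0 1 * T 1 0 = 1 := by
  have := T.2
  rw [Matrix.det_fin_two] at this
  exact this

omit [Fintype F] [DecidableEq F] in
theorem sl_mul (S T : SpecialLinearGroup (Fin 2) F) (i j : Fin 2) :
    (S * T) i j = S i 0 * T 0 j + S i 1 * T 1 j := by
  change (S.1 * T.1) i j = _
  rw [Matrix.mul_apply, Fin.sum_univ_two]

omit [Fintype F] [DecidableEq F] in
theorem sform_sub (h2 : (2 : F) ≠ 0) (S T : SpecialLinearGroup (Fin 2) F) (hq : S 0 1 ≠ 0)
    (hb : T 0 1 ≠ 0) (hB : (S * T) 0 1 ≠ 0) (x x' y : F) :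
    sform (S * T) x y - sform T x' y
      = -(S 0 1) / (2 * (S * T) 0 1 * T 0 1) *
          (y - (x' * (S * T) 0 1 - x * T 0 1) / S 0 1) ^ 2 + sform S x x' := by
  have e00 : (S * T) 0 0 = S 0 0 * T 0 0 + S 0 1 * T 1 0 := sl_mul S T 0 0
  have e01 : (S * T) 0 1 = S 0 0 * T 0 1 + S 0 1 * T 1 1 := sl_mul S T 0 1
  have e11 : (S * T) 1 1 = S 1 0 * T 0 1 + S 1 1 * T 1 1 := sl_mul S T 1 1
  unfold sform
  rw [e00, e01, e11]
  rw [e01] at hB
  exact qform_sub h2 (sl_det S) (sl_det T) hq hb hB x x' y

/-- **Block lemma.** -/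
theorem isGH_of_sl {I : Type} [Fintype I] [DecidableEq I] (hF : ringChar F ≠ 2)
    (T : I → I → SpecialLinearGroup (Fin 2) F) (hT : ∀ i j, T i j 0 1 ≠ 0)
    (hσ : ∀ i i' : I, i ≠ i' → ∃ σ : Equiv.Perm I, ∀ j,
      T i (σ j) * (T i' (σ j))⁻¹ = T i j * (T i' j)⁻¹ ∧
      quadraticChar F (T i (σ j) 0 1 * T i' (σ j) 0 1)
        = - quadraticChar F (T i j 0 1 * T i' j 0 1)) :
    IsGH (Fintype.card I)
      (fun (r : I × F) (c : I × F) => sform (T r.1 c.1) r.2 c.2) := by
  classical
  have h2 : (2 : F) ≠ 0 := Ring.two_ne_zero hF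
  rintro ⟨i, x⟩ ⟨i', x'⟩ hne g
  -- split the count over blocks
  have hsplit : (univ.filter (fun k : I × F =>
      sform (T i k.1) x k.2 - sform (T i' k.1) x' k.2 = g)).card
      = ∑ j : I, (univ.filter (fun y : F => sform (T i j) x y - sform (T i' j) x' y = g)).card := by
    simp only [Finset.card_filter]
    rw [Fintype.sum_prod_type]
  change (univ.filter (fun k : I × F =>
      sform (T i k.1) x k.2 - sform (T i' k.1) x' k.2 = g)).card = _
  rw [hsplit]
  by_cases hi : i = i'
  · subst hi
    have hx : x ≠ x' := fun h => hne (by rw [h])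
    have : ∀ j : I, (univ.filter (fun y : F =>
        sform (T i j) x y - sform (T i j) x' y = g)).card = 1 := by
      intro j
      have hB := hT i j
      have hlin : ∀ y : F, sform (T i j) x y - sform (T i j) x' y
          = (-(x - x') / T i j 0 1) * y + (T i j 1 1 * (x ^ 2 - x' ^ 2)) / (2 * T i j 0 1) := by
        intro y
        unfold sform qform
        field_simp
        ring
      simp_rw [hlin]
      exact card_lin _ (div_ne_zero (neg_ne_zero.2 (sub_ne_zero.2 hx)) hB) g
    rw [Finset.sum_congr rfl (fun j _ => this j)]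
    simp
  · obtain ⟨σ, hσ'⟩ := hσ i i' hi
    -- the off-diagonal entry of the quotient is nonzero
    have hS : ∀ j : I, (T i j * (T i' j)⁻¹) 0 1 ≠ 0 := by
      intro j h0
      obtain ⟨e1, e2⟩ := hσ' j
      have key : ∀ j' : I, (T i j' * (T i' j')⁻¹) 0 1 = 0 →
          T i j' 0 1 = (T i j' * (T i' j')⁻¹) 0 0 * T i' j' 0 1 := by
        intro j' h
        have h3 : T i j' = (T i j' * (T i' j')⁻¹) * T i' j' := by
          rw [inv_mul_cancel_right]
        have h4 : T i j' 0 1 = (T i j' * (T i' j')⁻¹) 0 0 * T i' j' 0 1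
            + (T i j' * (T i' j')⁻¹) 0 1 * T i' j' 1 1 := by
          conv_lhs => rw [h3]
          exact sl_mul _ _ 0 1
        rw [h, zero_mul, add_zero] at h4
        exact h4
      have k1 := key j h0
      have k2 := key (σ j) (by rw [e1]; exact h0)
      rw [e1] at k2
      rw [k1, k2] at e2
      have sq : ∀ s u : F, u ≠ 0 → quadraticChar F (s * u * u) = quadraticChar F s := by
        intro s u hu
        rw [mul_assoc, map_mul, map_mul, ← pow_two, quadraticChar_sq_one hu, mul_one]
      rw [sq _ _ (hT i' (σ j)), sq _ _ (hT i' j)] at e2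
      have hz : quadraticChar F ((T i j * (T i' j)⁻¹) 0 0) = 0 := by omega
      rw [quadraticChar_eq_zero_iff] at hz
      rw [hz, zero_mul] at k1
      exact hT i j k1
    have hcount : ∀ j : I, ((univ.filter (fun y : F =>
        sform (T i j) x y - sform (T i' j) x' y = g)).card : ℤ)
        = 1 + quadraticChar F (-(T i j * (T i' j)⁻¹) 0 1 / (2 * T i j 0 1 * T i' j 0 1))
            * quadraticChar F (g - sform (T i j * (T i' j)⁻¹) x x') := by
      intro j
      have hsub := fun y => sform_sub h2 (T i j * (T i' j)⁻¹) (T i' j) (hS j) (hT i' j)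
        (by rw [inv_mul_cancel_right]; exact hT i j) x x' y
      simp only [inv_mul_cancel_right] at hsub
      simp_rw [hsub]
      exact card_quad hF _ _ (div_ne_zero (neg_ne_zero.2 (hS j))
        (mul_ne_zero (mul_ne_zero h2 (hT i j)) (hT i' j))) g
    set f : I → ℤ := fun j =>
      quadraticChar F (-(T i j * (T i' j)⁻¹) 0 1 / (2 * T i j 0 1 * T i' j 0 1))
            * quadraticChar F (g - sform (T i j * (T i' j)⁻¹) x x') with hf
    have hfσ : ∀ j, f (σ j) = - f j := by
      intro j
      obtain ⟨e1, e2⟩ := hσ' j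
      simp only [hf]
      rw [e1]
      have split : ∀ s u v : F, quadraticChar F (-s / (2 * u * v))
          = quadraticChar F (-s / 2) * quadraticChar F (u * v)⁻¹ := by
        intro s u v
        rw [← map_mul]
        congr 1
        rw [mul_assoc, div_mul_eq_div_div, div_eq_mul_inv (-s / 2)]
      have qinv : ∀ u : F, quadraticChar F u⁻¹ = quadraticChar F u := by
        intro u
        by_cases hu : u = 0
        · rw [hu, _root_.inv_zero]
        · have : u⁻¹ = u * (u⁻¹) ^ 2 := by field_simp
          rw [this, map_mul, map_pow]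
          have h3 : quadraticChar F u⁻¹ ^ 2 = 1 := by
            rw [← map_pow]; exact quadraticChar_sq_one' (inv_ne_zero hu)
          rw [h3, mul_one]
      rw [split, split, qinv, qinv, e2]
      ring
    have hsum : ∑ j, f j = 0 := by
      have h3 : ∑ j, f (σ j) = ∑ j, f j := Equiv.sum_comp σ f
      simp_rw [hfσ] at h3
      rw [Finset.sum_neg_distrib] at h3
      omega
    have : ((∑ j : I, (univ.filter (fun y : F =>
        sform (T i j) x y - sform (T i' j) x' y = g)).card : ℕ) : ℤ) = Fintype.card I := by
      push_cast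
      rw [Finset.sum_congr rfl (fun j _ => hcount j), Finset.sum_add_distrib]
      change _ + ∑ j, f j = _
      rw [hsum]
      simp
    exact_mod_cast this

end Pool.Agent.H735R3
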