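import Mathlib
import Pool.Agent.H735R3.Quad

set_option autoImplicit false

namespace Pool.Agent.H735R3

open Finset Matrix

variable {F : Type} [Field F]

/-- the action of `SL(2,F)` on pairs -/
def act (A : SpecialLinearGroup (Fin 2) F) (v : F × F) : F × F :=
  (A 0 0 * v.1 + A 0 1 * v.2, A 1 0 * v.1 + A 1 1 * v.2)

theorem act_mul (A B : SpecialLinearGroup (Fin 2) F) (v : F × F) :
    act (A * B) v = act A (act B v) := by
  unfold act
  rw [sl_mul, sl_mul, sl_mul, sl_mul]
  ext <;> simp <;> ring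

theorem act_one (v : F × F) : act (1 : SpecialLinearGroup (Fin 2) F) v = v := by
  unfold act
  ext <;> simp

/-- a matrix of determinant one from its entries -/
def slmk (a b c d : F) (h : a * d - b * c = 1) : SpecialLinearGroup (Fin 2) F :=
  ⟨!![a, b; c, d], by rw [Matrix.det_fin_two_of]; exact h⟩

theorem act_mk (a b c d : F) (h : a * d - b * c = 1) (v : F × F) :
    act (slmk a b c d h) v = (a * v.1 + b * v.2, c * v.1 + d * v.2) := rfl

/-- a matrix with given second column -/
def Rm (v : F × F) (h : v.2 ≠ 0) : SpecialLinearGroup (Fin 2) F :=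
  slmk v.2⁻¹ v.1 0 v.2 (by rw [mul_zero, sub_zero]; exact inv_mul_cancel₀ h)

theorem mul_Rm (A : SpecialLinearGroup (Fin 2) F) (v : F × F) (h : v.2 ≠ 0) :
    (A * Rm v h) 0 1 = (act A v).1 := by
  rw [sl_mul]; rfl

/-- conjugation by `(u, s) ↦ (m s, u)` -/
def conjH (m : F) (hm : m ≠ 0) (A : SpecialLinearGroup (Fin 2) F) :
    SpecialLinearGroup (Fin 2) F :=
  slmk (A 1 1) (m * A 1 0) (A 0 1 / m) (A 0 0) (by
    have := sl_det A
    field_simp
    linear_combination this)

/-- conjugation by `(u, s) ↦ (n u, s)` -/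
def conjG (n : F) (hn : n ≠ 0) (A : SpecialLinearGroup (Fin 2) F) :
    SpecialLinearGroup (Fin 2) F :=
  slmk (A 0 0) (n * A 0 1) (A 1 0 / n) (A 1 1) (by
    have := sl_det A
    field_simp
    linear_combination this)

def mapH (m : F) (v : F × F) : F × F := (m * v.2, v.1)
def mapG (n : F) (v : F × F) : F × F := (n * v.1, v.2)

theorem act_conjH (m : F) (hm : m ≠ 0) (A : SpecialLinearGroup (Fin 2) F) (v : F × F) :
    act (conjH m hm A) (mapH m v) = mapH m (act A v) := by
  unfold conjH mapH
  rw [act_mk]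
  unfold act
  ext
  · simp; ring
  · simp; field_simp; ring

theorem act_conjG (n : F) (hn : n ≠ 0) (A : SpecialLinearGroup (Fin 2) F) (v : F × F) :
    act (conjG n hn A) (mapG n v) = mapG n (act A v) := by
  unfold conjG mapG
  rw [act_mk]
  unfold act
  ext
  · simp; ring
  · simp; field_simp

/-- the data for the construction -/
structure Par (F : Type) [Field F] [Fintype F] [DecidableEq F] where
  m : F
  x : Bool → F
  n : F
  X : ℤ
  Y : ℤ
  Z : ℤ
  hne : x false ≠ x true
  hn : quadraticChar F n = -1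
  hm : quadraticChar F m = 1
  hm1 : quadraticChar F (1 - m) = -1
  hX : ∀ b, quadraticChar F (x b) = X
  hY : ∀ b, quadraticChar F (x b - 1) = Y
  hZ : ∀ b, quadraticChar F (x b - m) = Z
  hXYZ : X * Y * Z = - quadraticChar F (-1)

variable [Fintype F] [DecidableEq F]

namespace Par

variable (P : Par F)

theorem n0 : P.n ≠ 0 := by
  intro h; have := P.hn; rw [h] at this; simp at this

theorem m0 : P.m ≠ 0 := by
  intro h; have := P.hm; rw [h] at this; simp at this

theorem m1 : 1 - P.m ≠ 0 := by
  intro h; have := P.hm1; rw [h] at this; simp at this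

theorem nu_ne : quadraticChar F (-1 : F) ≠ 0 := by
  rw [Ne, quadraticChar_eq_zero_iff]; exact neg_ne_zero.2 one_ne_zero

theorem x0 (b : Bool) : P.x b ≠ 0 := by
  intro h
  have h1 := P.hX b
  rw [h, quadraticChar_zero] at h1
  have h2 := P.hXYZ
  rw [← h1] at h2
  apply nu_ne (F := F)
  linarith

theorem d0 : P.x false - P.x true ≠ 0 := sub_ne_zero.2 P.hne

def J : SpecialLinearGroup (Fin 2) F := slmk 0 1 (-1) 0 (by ring)

def L : SpecialLinearGroup (Fin 2) F :=
  slmk 1 (-1) (1 / (1 - P.m)) (-(P.m / (1 - P.m))) (by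
    have := P.m1
    field_simp
    ring)

/-- the determinant of `w` -/
def Δ : F := P.m * (1 - P.m)

theorem Δ0 : P.Δ ≠ 0 := mul_ne_zero P.m0 P.m1

theorem chiΔ : quadraticChar F P.Δ = -1 := by
  unfold Δ; rw [map_mul, P.hm, P.hm1]; ring

def M : SpecialLinearGroup (Fin 2) F :=
  slmk ((P.m * (P.x false - 1) - P.m * (P.x true - 1) / P.Δ) / (P.x false - P.x true))
    ((-P.x true * (P.m * (P.x false - 1)) + P.x false * (P.m * (P.x true - 1)) / P.Δ)
      / (P.x false - P.x true))
    (((P.x false - P.m) - (P.x true - P.m) / P.Δ) / (P.x false - P.x true))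
    ((-P.x true * (P.x false - P.m) + P.x false * (P.x true - P.m) / P.Δ)
      / (P.x false - P.x true)) (by
    have h1 := P.d0
    have h2 := P.Δ0
    have h3 : P.Δ = P.m * (1 - P.m) := rfl
    field_simp
    rw [h3]
    ring)

def pt (b : Bool) : F × F := (P.x b, 1)

theorem act_M0 : act P.M (P.pt false) = (P.m * (P.x false - 1), P.x false - P.m) := by
  have h1 := P.d0
  have h2 := P.Δ0
  unfold M pt
  rw [act_mk]
  ext
  · simp only []
    field_simp
    ring
  · simp only []
    field_simp
    ring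

theorem act_M1 : act P.M (P.pt true)
    = (P.m * (P.x true - 1) / P.Δ, (P.x true - P.m) / P.Δ) := by
  have h1 := P.d0
  have h2 := P.Δ0
  unfold M pt
  rw [act_mk]
  ext
  · simp only []
    field_simp
    ring
  · simp only []
    field_simp
    ring

theorem act_L (v : F × F) : act P.L v = (v.1 - v.2, (v.1 - P.m * v.2) / (1 - P.m)) := by
  have h1 := P.m1
  unfold L
  rw [act_mk]
  ext
  · simp only []
    ring
  · simp only []
    field_simp
    ring

omit [Fintype F] [DecidableEq F] in
theorem act_J (v : F × F) : act (J : SpecialLinearGroup (Fin 2) F) v = (v.2, -v.1) := by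
  unfold J
  rw [act_mk]
  ext
  · simp only []
    ring
  · simp only []
    ring

def Lj (b : Bool) : SpecialLinearGroup (Fin 2) F := bif b then conjG P.n P.n0 P.L else P.L

def Mj (b c : Bool) : SpecialLinearGroup (Fin 2) F :=
  bif b then conjG P.n P.n0 (bif c then conjH P.m P.m0 P.M else P.M)
  else (bif c then conjH P.m P.m0 P.M else P.M)

def mH (c : Bool) (v : F × F) : F × F := bif c then mapH P.m v else v
def mG (b : Bool) (v : F × F) : F × F := bif b then mapG P.n v else v

def pj (j : Bool × Bool × Bool) : F × F := P.mG j.1 (P.mH j.2.1 (P.pt j.2.2))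

theorem pj2 (j : Bool × Bool × Bool) : (P.pj j).2 ≠ 0 := by
  obtain ⟨a, b, c⟩ := j
  have h1 := P.x0 c
  cases a <;> cases b <;> simp [pj, mG, mH, mapG, mapH, pt, h1]

/-- powers with exponent `0` or `1` -/
def pw {G : Type*} [One G] (b : Bool) (g : G) : G := bif b then g else 1

def Xj (i j : Bool × Bool × Bool) : SpecialLinearGroup (Fin 2) F :=
  pw i.1 J * pw i.2.1 (P.Lj j.1) * pw i.2.2 (P.Mj j.1 j.2.1)

def T (i j : Bool × Bool × Bool) : SpecialLinearGroup (Fin 2) F :=
  P.Xj i j * Rm (P.pj j) (P.pj2 j)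

theorem T01 (i j : Bool × Bool × Bool) : P.T i j 0 1 = (act (P.Xj i j) (P.pj j)).1 :=
  mul_Rm _ _ _

def aM (b : Bool) (v : F × F) : F × F := bif b then act P.M v else v
def aL (b : Bool) (v : F × F) : F × F := bif b then act P.L v else v
def aJ (b : Bool) (v : F × F) : F × F := bif b then (v.2, -v.1) else v

omit [Fintype F] [DecidableEq F] in
theorem act_pw (b : Bool) (A : SpecialLinearGroup (Fin 2) F) (v : F × F) :
    act (pw b A) v = bif b then act A v else v := by
  cases b
  · exact act_one v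
  · rfl

theorem T01' (i j : Bool × Bool × Bool) : P.T i j 0 1 =
    (aJ i.1 (P.mG j.1 (P.aL i.2.1 (P.mH j.2.1 (P.aM i.2.2 (P.pt j.2.2)))))).1 := by
  rw [T01]
  obtain ⟨i1, i2, i3⟩ := i
  obtain ⟨j1, j2, j3⟩ := j
  unfold Xj
  rw [act_mul, act_mul, act_pw, act_pw, act_pw]
  cases i1 <;> cases i2 <;> cases i3 <;> cases j1 <;> cases j2 <;>
    simp [aJ, mG, aL, mH, aM, pj, Lj, Mj, act_conjG, act_conjH, act_J]

end Par

end Pool.Agent.H735R3
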