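import Mathlib
import Pool.Agent.H735R3.Dita

set_option autoImplicit false

namespace Pool.Agent.H735R3

open Finset Matrix

variable {F : Type} [Field F] [Fintype F] [DecidableEq F]

theorem chi_inv (u : F) : quadraticChar F u⁻¹ = quadraticChar F u := by
  by_cases hu : u = 0
  · rw [hu, _root_.inv_zero]
  · have : u⁻¹ = u * (u⁻¹) ^ 2 := by field_simp
    rw [this, map_mul, map_pow]
    have h3 : quadraticChar F u⁻¹ ^ 2 = 1 := by
      rw [← map_pow]; exact quadraticChar_sq_one' (inv_ne_zero hu)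
    rw [h3, mul_one]

namespace Par

variable (P : Par F)

/-- explicit values -/
def val (i2 i3 j2 : Bool) (x : F) : F × F :=
  match i3, j2, i2 with
  | false, false, false => (x, 1)
  | false, false, true => (x - 1, (x - P.m) * (1 - P.m)⁻¹)
  | false, true, false => (P.m, x)
  | false, true, true => (-1 * (x - P.m), -1 * (P.m * ((x - 1) * (1 - P.m)⁻¹)))
  | true, false, false => (P.m * (x - 1), x - P.m)
  | true, false, true => (-1 * ((1 - P.m) * x), -1 * P.m)
  | true, true, false => (P.m * (x - P.m), P.m * (x - 1))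
  | true, true, true => (P.m * (1 - P.m), P.m * x)

theorem chain_eq (i2 i3 j2 j3 : Bool) :
    P.aL i2 (P.mH j2 (P.aM i3 (P.pt j3))) =
      ((bif i3 && j3 then P.Δ⁻¹ else 1) * (P.val i2 i3 j2 (P.x j3)).1,
        (bif i3 && j3 then P.Δ⁻¹ else 1) * (P.val i2 i3 j2 (P.x j3)).2) := by
  have h1 := P.m1
  have h2 := P.Δ0
  have h0 := P.m0
  have hM0 : act P.M (P.x false, 1) = (P.m * (P.x false - 1), P.x false - P.m) := P.act_M0
  have hM1 : act P.M (P.x true, 1)
    = (P.m * (P.x true - 1) / P.Δ, (P.x true - P.m) / P.Δ) := P.act_M1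
  have hΔ : P.Δ = P.m * (1 - P.m) := rfl
  cases i2 <;> cases i3 <;> cases j2 <;> cases j3 <;>
    simp only [aL, mH, aM, act_L, hM0, hM1, mapH, pt, val, cond_true, cond_false,
      Bool.true_and, Bool.false_and, one_mul, Prod.mk.injEq] <;>
    constructor <;> first | ring1 | (field_simp; ring1) | field_simp | simp

/-- the table of signs, `a, b, c` for `X, Y, Z` and `ν = -(a b c)` -/
def base (a b c : ℤ) (i1 i2 i3 j2 : Bool) : ℤ :=
  match i3, j2, i2, i1 with
  | false, false, false, false => a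
  | false, false, false, true => 1
  | false, false, true, false => b
  | false, false, true, true => -c
  | false, true, false, false => 1
  | false, true, false, true => a
  | false, true, true, false => -(a * b * c) * c
  | false, true, true, true => (a * b * c) * b
  | true, false, false, false => b
  | true, false, false, true => c
  | true, false, true, false => (a * b * c) * a
  | true, false, true, true => -(a * b * c)
  | true, true, false, false => c
  | true, true, false, true => b
  | true, true, true, false => -1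
  | true, true, true, true => a

def eps (a b c : ℤ) (i j : Bool × Bool × Bool) : ℤ :=
  (bif j.1 && !i.1 then -1 else 1) * ((bif i.2.2 && j.2.2 then -1 else 1) *
    base a b c i.1 i.2.1 i.2.2 j.2.1)

theorem chi_T01 (i j : Bool × Bool × Bool) :
    quadraticChar F (P.T i j 0 1) = eps P.X P.Y P.Z i j := by
  rw [T01', chain_eq]
  obtain ⟨i1, i2, i3⟩ := i
  obtain ⟨j1, j2, j3⟩ := j
  have hnu : quadraticChar F (-1 : F) = -(P.X * P.Y * P.Z) := by rw [P.hXYZ]; ring
  have e1 := P.hX j3
  have e2 := P.hY j3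
  have e3 := P.hZ j3
  have e4 := P.hm
  have e5 := P.hm1
  have e6 : quadraticChar F (P.Δ⁻¹) = -1 := by rw [chi_inv, P.chiΔ]
  have e7 := P.hn
  have e8 : quadraticChar F ((1 - P.m)⁻¹) = -1 := by rw [chi_inv, e5]
  have key : quadraticChar F (bif i1 then (P.val i2 i3 j2 (P.x j3)).2
      else (P.val i2 i3 j2 (P.x j3)).1) = base P.X P.Y P.Z i1 i2 i3 j2 := by
    cases i1 <;> cases i2 <;> cases i3 <;> cases j2 <;>
      simp only [val, base, cond_true, cond_false, map_mul, e1, e2, e3, e4, e5, e8, hnu,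
        map_one] <;> ring
  have key2 : quadraticChar F (bif (i3 && j3) then P.Δ⁻¹ else 1) =
      (bif i3 && j3 then -1 else 1) := by
    cases (i3 && j3)
    · simp
    · exact e6
  unfold eps
  cases i1 <;> cases j1 <;>
    simp only [aJ, mG, mapG, cond_true, cond_false, map_mul,
      Bool.not_true, Bool.not_false, Bool.and_true, Bool.and_false, one_mul, key2, e7] at key ⊢ <;>
    rw [key]

/-- which coordinate to flip -/
def flip (i i' : Bool × Bool × Bool) (j : Bool × Bool × Bool) : Bool × Bool × Bool :=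
  bif xor i.2.2 i'.2.2 then (j.1, j.2.1, !j.2.2)
  else bif xor i.2.1 i'.2.1 then (j.1, !j.2.1, j.2.2)
  else (!j.1, j.2.1, j.2.2)

theorem flip_flip (i i' j : Bool × Bool × Bool) : flip i i' (flip i i' j) = j := by
  revert i i' j; decide

def sgn (b : Bool) : ℤ := bif b then -1 else 1

theorem eps_flip (a b c : Bool) (i i' j : Bool × Bool × Bool) (h : i ≠ i') :
    eps (sgn a) (sgn b) (sgn c) i (flip i i' j) * eps (sgn a) (sgn b) (sgn c) i' (flip i i' j)
      = -(eps (sgn a) (sgn b) (sgn c) i j * eps (sgn a) (sgn b) (sgn c) i' j) := by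
  revert a b c i i' j; decide

theorem eps_ne (a b c : Bool) (i j : Bool × Bool × Bool) :
    eps (sgn a) (sgn b) (sgn c) i j ≠ 0 := by
  revert a b c i j; decide

theorem sgn_of (u : F) (hu : u ≠ 0) : ∃ b, quadraticChar F u = sgn b := by
  rcases quadraticChar_dichotomy hu with h | h
  · exact ⟨false, h⟩
  · exact ⟨true, h⟩

theorem nz : P.X ≠ 0 ∧ P.Y ≠ 0 ∧ P.Z ≠ 0 := by
  have h2 := P.hXYZ
  have h3 := nu_ne (F := F)
  refine ⟨?_, ?_, ?_⟩ <;> intro h <;> rw [h] at h2 <;> apply h3 <;> simp at h2 <;> exact h2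

theorem exists_signs : ∃ a b c, P.X = sgn a ∧ P.Y = sgn b ∧ P.Z = sgn c := by
  obtain ⟨h1, h2, h3⟩ := P.nz
  have e1 := P.hX false
  have e2 := P.hY false
  have e3 := P.hZ false
  have g1 : P.x false ≠ 0 := fun h => h1 (by rw [← e1, h, quadraticChar_zero])
  have g2 : P.x false - 1 ≠ 0 := fun h => h2 (by rw [← e2, h, quadraticChar_zero])
  have g3 : P.x false - P.m ≠ 0 := fun h => h3 (by rw [← e3, h, quadraticChar_zero])
  obtain ⟨a, ha⟩ := sgn_of _ g1
  obtain ⟨b, hb⟩ := sgn_of _ g2
  obtain ⟨c, hc⟩ := sgn_of _ g3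
  exact ⟨a, b, c, by rw [← e1, ha], by rw [← e2, hb], by rw [← e3, hc]⟩

theorem T_quot (i i' j : Bool × Bool × Bool) :
    P.T i j * (P.T i' j)⁻¹ = P.Xj i j * (P.Xj i' j)⁻¹ := by
  unfold T
  rw [_root_.mul_inv_rev, mul_assoc, mul_inv_cancel_left]

theorem quot_flip (i i' j : Bool × Bool × Bool) :
    P.T i (flip i i' j) * (P.T i' (flip i i' j))⁻¹ = P.T i j * (P.T i' j)⁻¹ := by
  rw [T_quot, T_quot]
  obtain ⟨i1, i2, i3⟩ := i
  obtain ⟨i1', i2', i3'⟩ := i'
  obtain ⟨j1, j2, j3⟩ := j
  unfold Xj flip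
  cases i3 <;> cases i3' <;> cases i2 <;> cases i2' <;>
    simp [pw, mul_assoc]

theorem isGH : IsGH 8 (fun (r : (Bool × Bool × Bool) × F) (c : (Bool × Bool × Bool) × F) =>
    sform (P.T r.1 c.1) r.2 c.2) := by
  classical
  obtain ⟨a, b, c, ha, hb, hc⟩ := P.exists_signs
  have hF : ringChar F ≠ 2 := by
    intro h
    have h1 := P.hn
    have h2 := FiniteField.isSquare_of_char_two h P.n
    have h3 := (quadraticChar_one_iff_isSquare P.n0).2 h2
    rw [h3] at h1
    norm_num at h1
  have hT : ∀ i j, P.T i j 0 1 ≠ 0 := by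
    intro i j h
    have h1 := P.chi_T01 i j
    rw [h, quadraticChar_zero, ha, hb, hc] at h1
    exact eps_ne a b c i j h1.symm
  have := isGH_of_sl hF P.T hT (fun i i' hne =>
    ⟨⟨flip i i', flip i i', flip_flip i i', flip_flip i i'⟩, fun j => ⟨P.quot_flip i i' j, by
      simp only [Equiv.coe_fn_mk]
      rw [map_mul, map_mul, chi_T01, chi_T01, chi_T01, chi_T01, ha, hb, hc]
      exact eps_flip a b c i i' j hne⟩⟩)
  simpa using this

end Par

theorem goal_of_par (P : Par F) : Goal (Fintype.card F) := by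
  refine goal_of_isGH rfl ?_ ?_ _ P.isGH <;> simp [mul_comm]

end Pool.Agent.H735R3
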