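import Mathlib
import Pool.Agent.H735R3.Dita2

set_option autoImplicit false

namespace Pool.Agent.H735R3

open Finset

variable {F : Type} [Field F] [Fintype F] [DecidableEq F]


theorem chi_sq {u : F} (hu : u ≠ 0) : quadraticChar F u * quadraticChar F u = 1 := by
  rw [← pow_two]; exact quadraticChar_sq_one hu

/-- `∑ χ(t) χ(t+a) = -1` -/
theorem sum_shift (hF : ringChar F ≠ 2) {a : F} (ha : a ≠ 0) :
    ∑ t : F, quadraticChar F t * quadraticChar F (t + a) = -1 := by
  classical
  have h0 : ∑ u : F, quadraticChar F u = 0 := quadraticChar_sum_zero hF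
  have h1 : ∑ u ∈ univ.erase (1 : F), quadraticChar F u = -1 := by
    have := Finset.add_sum_erase univ (fun u : F => quadraticChar F u) (mem_univ (1 : F))
    rw [h0] at this
    simp only [map_one] at this
    linarith
  have h2 : ∑ t : F, quadraticChar F t * quadraticChar F (t + a)
      = ∑ t ∈ univ.erase (0 : F), quadraticChar F t * quadraticChar F (t + a) := by
    rw [← Finset.add_sum_erase univ _ (mem_univ (0 : F))]
    simp
  rw [h2, ← h1]
  refine Finset.sum_bij (fun t _ => 1 + a / t) ?_ ?_ ?_ ?_
  · intro t ht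
    rw [Finset.mem_erase] at ht ⊢
    refine ⟨?_, mem_univ _⟩
    intro h
    have : a / t = 0 := by linear_combination h
    rcases div_eq_zero_iff.1 this with h | h
    · exact ha h
    · exact ht.1 h
  · intro t ht t' ht' h
    rw [Finset.mem_erase] at ht ht'
    have h3 : a / t = a / t' := by linear_combination h
    rw [div_eq_div_iff ht.1 ht'.1] at h3
    exact (mul_left_cancel₀ ha h3).symm
  · intro u hu
    rw [Finset.mem_erase] at hu
    have hu1 : u - 1 ≠ 0 := sub_ne_zero.2 hu.1
    refine ⟨a / (u - 1), ?_, ?_⟩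
    · rw [Finset.mem_erase]
      exact ⟨div_ne_zero ha hu1, mem_univ _⟩
    · field_simp
      ring
  · intro t ht
    rw [Finset.mem_erase] at ht
    have : t * (t + a) = t ^ 2 * (1 + a / t) := by
      have := ht.1
      field_simp
    rw [← map_mul, this, map_mul, quadraticChar_sq_one' ht.1, one_mul]

/-- `∑_m χ(x-m) χ(x'-m)` -/
theorem sum_pair (hF : ringChar F ≠ 2) (x x' : F) :
    ∑ m : F, quadraticChar F (x - m) * quadraticChar F (x' - m)
      = (if x = x' then (Fintype.card F : ℤ) else 0) - 1 := by
  classical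
  have h1 : ∑ m : F, quadraticChar F (x - m) * quadraticChar F (x' - m)
      = ∑ t : F, quadraticChar F t * quadraticChar F (t + (x' - x)) := by
    refine Fintype.sum_equiv (Equiv.subLeft x) _ _ ?_
    intro m
    simp only [Equiv.subLeft_apply]
    congr 2
    ring
  rw [h1]
  by_cases h : x = x'
  · subst h
    rw [if_pos rfl]
    simp only [sub_self, add_zero]
    rw [← Finset.add_sum_erase univ _ (mem_univ (0 : F))]
    rw [Finset.sum_congr rfl (fun t ht => chi_sq (Finset.ne_of_mem_erase ht))]
    rw [Finset.sum_const, Finset.card_erase_of_mem (mem_univ _), Finset.card_univ]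
    have : 1 ≤ Fintype.card F := Fintype.card_pos
    simp only [quadraticChar_zero, zero_mul, zero_add, nsmul_eq_mul, mul_one]
    push_cast [Nat.cast_sub this]
    ring
  · rw [if_neg h, sum_shift hF (sub_ne_zero.2 (fun h' => h h'.symm))]
    ring

/-- the function `x ↦ χ(x(x-1))` -/
def uu (x : F) : ℤ := quadraticChar F x * quadraticChar F (x - 1)

/-- the sum `∑ χ(x(x-1)(x-m))` -/
def SS (m : F) : ℤ := ∑ x : F, uu x * quadraticChar F (x - m)

theorem uu_sq_le (x : F) : uu x * uu x ≤ if x = 0 ∨ x = 1 then 0 else 1 := by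
  unfold uu
  split_ifs with h
  · rcases h with h | h
    · rw [h]; simp
    · rw [h]; simp
  · push Not at h
    have h1 := chi_sq h.1
    have h2 := chi_sq (sub_ne_zero.2 h.2)
    nlinarith

theorem sum_uu_sq : ∑ x : F, uu x * uu x ≤ (Fintype.card F : ℤ) - 2 := by
  classical
  refine le_trans (Finset.sum_le_sum (fun x _ => uu_sq_le x)) ?_
  have : ∑ x : F, (if x = 0 ∨ x = 1 then (0 : ℤ) else 1)
      = ∑ x ∈ ((univ : Finset F) \ {(0 : F), 1}), (1 : ℤ) := by
    rw [← Finset.sum_filter_add_sum_filter_not univ (fun x : F => x = 0 ∨ x = 1)]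
    rw [Finset.sum_congr rfl (fun x hx => if_pos (Finset.mem_filter.1 hx).2)]
    rw [Finset.sum_const_zero, zero_add]
    rw [Finset.sum_congr rfl (fun x hx => if_neg (Finset.mem_filter.1 hx).2)]
    congr 1
    ext x
    simp
  rw [this, Finset.sum_const, Finset.card_sdiff_of_subset (Finset.subset_univ _),
    Finset.card_univ, Finset.card_pair zero_ne_one]
  have h2 : 2 ≤ Fintype.card F := Fintype.one_lt_card
  simp only [nsmul_eq_mul, mul_one]
  push_cast [Nat.cast_sub h2]
  exact le_rfl

theorem sum_SS_sq (hF : ringChar F ≠ 2) :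
    ∑ m : F, SS m * SS m ≤ (Fintype.card F : ℤ) * ((Fintype.card F : ℤ) - 2) := by
  classical
  have h1 : ∑ m : F, SS m * SS m
      = ∑ x : F, ∑ x' : F, uu x * uu x' *
        ∑ m : F, quadraticChar F (x - m) * quadraticChar F (x' - m) := by
    unfold SS
    simp_rw [Finset.sum_mul_sum, Finset.mul_sum]
    rw [Finset.sum_comm]
    refine Finset.sum_congr rfl fun x _ => ?_
    rw [Finset.sum_comm]
    refine Finset.sum_congr rfl fun x' _ => ?_
    refine Finset.sum_congr rfl fun m _ => ?_
    ring
  rw [h1]
  have h2 : ∑ x : F, ∑ x' : F, uu x * uu x' *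
        ∑ m : F, quadraticChar F (x - m) * quadraticChar F (x' - m)
      = (Fintype.card F : ℤ) * ∑ x : F, uu x * uu x - (∑ x : F, uu x) * (∑ x : F, uu x) := by
    rw [Finset.sum_mul_sum, Finset.mul_sum, ← Finset.sum_sub_distrib]
    refine Finset.sum_congr rfl fun x _ => ?_
    have : ∀ x' : F, uu x * uu x' * ∑ m : F, quadraticChar F (x - m) * quadraticChar F (x' - m)
        = (if x = x' then (Fintype.card F : ℤ) * (uu x * uu x') else 0) - uu x * uu x' := by
      intro x'
      rw [sum_pair hF]
      split_ifs <;> ring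
    rw [Finset.sum_congr rfl (fun x' _ => this x'), Finset.sum_sub_distrib,
      Finset.sum_ite_eq]
    simp
  rw [h2]
  have h3 := sum_uu_sq (F := F)
  have h4 : (0 : ℤ) ≤ Fintype.card F := Nat.cast_nonneg _
  nlinarith [mul_self_nonneg (∑ x : F, uu x)]

/-- the good parameters -/
def MM (F : Type) [Field F] [Fintype F] [DecidableEq F] : Finset F :=
  univ.filter (fun m => quadraticChar F m = 1 ∧ quadraticChar F (1 - m) = -1)

theorem nu_cases : quadraticChar F (-1 : F) = 1 ∨ quadraticChar F (-1 : F) = -1 :=
  quadraticChar_dichotomy (neg_ne_zero.2 one_ne_zero)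

theorem card_MM (hF : ringChar F ≠ 2) : (Fintype.card F : ℤ) ≤ 4 * (MM F).card + 3 := by
  classical
  have h1 : ∑ m : F, (1 + quadraticChar F m) * (1 - quadraticChar F (1 - m))
      = (Fintype.card F : ℤ) + quadraticChar F (-1) := by
    have e : ∀ m : F, (1 + quadraticChar F m) * (1 - quadraticChar F (1 - m))
        = 1 + quadraticChar F m - quadraticChar F (1 - m)
          - quadraticChar F (-1) * (quadraticChar F m * quadraticChar F (m + -1)) := by
      intro m
      have : quadraticChar F (1 - m) = quadraticChar F (-1) * quadraticChar F (m + -1) := by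
        rw [← map_mul]; congr 1; ring
      rw [this]; ring
    rw [Finset.sum_congr rfl (fun m _ => e m), Finset.sum_sub_distrib, Finset.sum_sub_distrib,
      Finset.sum_add_distrib, ← Finset.mul_sum,
      sum_shift hF (neg_ne_zero.2 (one_ne_zero (α := F)))]
    have e2 : ∑ m : F, quadraticChar F (1 - m) = 0 := by
      rw [← quadraticChar_sum_zero hF]
      exact Fintype.sum_equiv (Equiv.subLeft 1) _ _ (fun m => rfl)
    rw [quadraticChar_sum_zero hF, e2]
    simp
  have h2 : ∀ m : F, (1 + quadraticChar F m) * (1 - quadraticChar F (1 - m))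
      ≤ (if m ∈ MM F then 4 else 0) + (if m = 1 then 2 else 0) := by
    intro m
    by_cases h0 : m = 0
    · subst h0
      simp [MM]
    · by_cases h1 : m = 1
      · subst h1
        simp [MM]
      · have d1 := quadraticChar_dichotomy h0
        have d2 := quadraticChar_dichotomy (sub_ne_zero.2 (fun h => h1 h.symm) : (1 : F) - m ≠ 0)
        rw [if_neg h1]
        simp only [MM, Finset.mem_filter, Finset.mem_univ, true_and]
        rcases d1 with d1 | d1 <;> rcases d2 with d2 | d2 <;> rw [d1, d2] <;> norm_num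
  have h3 := Finset.sum_le_sum (fun m (_ : m ∈ (univ : Finset F)) => h2 m)
  rw [h1, Finset.sum_add_distrib, Finset.sum_ite_eq', Finset.sum_ite_mem,
    Finset.univ_inter, Finset.sum_const] at h3
  simp only [nsmul_eq_mul, Finset.mem_univ, if_true] at h3
  rcases nu_cases (F := F) with h | h <;> rw [h] at h3 <;> linarith

/-- the set of good `x` for `m` -/
def NN (m : F) : Finset F :=
  univ.filter (fun x => uu x * quadraticChar F (x - m) = - quadraticChar F (-1))

theorem card_NN (m : F) :
    (Fintype.card F : ℤ) - 3 - quadraticChar F (-1) * SS m ≤ 2 * (NN m).card := by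
  classical
  have h2 : ∀ x : F, (1 : ℤ) - quadraticChar F (-1) * (uu x * quadraticChar F (x - m))
      ≤ (if x ∈ NN m then 2 else 0) + (if x = 0 then 1 else 0) + (if x = 1 then 1 else 0)
        + (if x = m then 1 else 0) := by
    intro x
    have hn := nu_cases (F := F)
    by_cases h0 : x = 0
    · subst h0
      have : uu (0 : F) = 0 := by simp [uu]
      rw [this]
      simp only [zero_mul, mul_zero, sub_zero, if_true]
      split_ifs <;> norm_num
    by_cases h1 : x = 1
    · subst h1
      have : uu (1 : F) = 0 := by simp [uu]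
      rw [this]
      simp only [zero_mul, mul_zero, sub_zero, if_true]
      split_ifs <;> norm_num
    by_cases hm : x = m
    · subst hm
      rw [sub_self, quadraticChar_zero]
      simp only [mul_zero, sub_zero, if_true]
      split_ifs <;> norm_num
    · rw [if_neg h0, if_neg h1, if_neg hm]
      have d1 := quadraticChar_dichotomy h0
      have d2 := quadraticChar_dichotomy (sub_ne_zero.2 h1)
      have d3 := quadraticChar_dichotomy (sub_ne_zero.2 hm)
      have hmem : x ∈ NN m ↔ uu x * quadraticChar F (x - m) = - quadraticChar F (-1) := by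
        simp only [NN, Finset.mem_filter, Finset.mem_univ, true_and]
      have huu : uu x * quadraticChar F (x - m) = 1 ∨ uu x * quadraticChar F (x - m) = -1 := by
        unfold uu
        rcases d1 with d1 | d1 <;> rcases d2 with d2 | d2 <;> rcases d3 with d3 | d3 <;>
          rw [d1, d2, d3] <;> norm_num
      by_cases hin : x ∈ NN m
      · rw [if_pos hin]
        rcases huu with e | e <;> rcases hn with hn | hn <;> rw [e, hn] <;> norm_num
      · rw [if_neg hin]
        rw [hmem] at hin
        rcases huu with e | e <;> rcases hn with hn | hn <;> rw [e, hn] at hin ⊢ <;>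
          norm_num at hin <;> norm_num
  have h3 := Finset.sum_le_sum (fun x (_ : x ∈ (univ : Finset F)) => h2 x)
  rw [Finset.sum_sub_distrib, ← Finset.mul_sum, Finset.sum_add_distrib, Finset.sum_add_distrib,
    Finset.sum_add_distrib, Finset.sum_ite_eq', Finset.sum_ite_eq', Finset.sum_ite_eq',
    Finset.sum_ite_mem, Finset.univ_inter, Finset.sum_const, Finset.sum_const] at h3
  simp only [nsmul_eq_mul, Finset.mem_univ, if_true, Finset.card_univ, mul_one] at h3
  unfold SS
  linarith

theorem exists_good (hF : ringChar F ≠ 2) (hq : 23 ≤ Fintype.card F) :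
    ∃ m ∈ MM F, 5 ≤ (NN m).card := by
  classical
  by_contra hcon
  push Not at hcon
  set q : ℤ := (Fintype.card F : ℤ) with hqdef
  have hq' : (23 : ℤ) ≤ q := by rw [hqdef]; exact_mod_cast hq
  have h1 : ∀ m ∈ MM F, (q - 11) * (q - 11) ≤ SS m * SS m := by
    intro m hm
    have h2 := card_NN m
    have h3 : ((NN m).card : ℤ) ≤ 4 := by
      have := hcon m hm
      exact_mod_cast Nat.lt_succ_iff.1 this
    rcases nu_cases (F := F) with h | h <;> rw [h] at h2 <;> nlinarith
  have h2 : ((MM F).card : ℤ) * ((q - 11) * (q - 11)) ≤ ∑ m : F, SS m * SS m := by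
    calc ((MM F).card : ℤ) * ((q - 11) * (q - 11)) = ∑ m ∈ MM F, (q - 11) * (q - 11) := by
          rw [Finset.sum_const, nsmul_eq_mul]
      _ ≤ ∑ m ∈ MM F, SS m * SS m := Finset.sum_le_sum h1
      _ ≤ ∑ m : F, SS m * SS m :=
          Finset.sum_le_sum_of_subset_of_nonneg (Finset.subset_univ _)
            (fun m _ _ => mul_self_nonneg _)
  have h3 := sum_SS_sq hF
  have h4 := card_MM hF
  rw [← hqdef] at h3 h4
  have h5 : ((MM F).card : ℤ) * ((q - 11) * (q - 11)) ≤ q * (q - 2) := le_trans h2 h3
  have h6 : (q - 3) * ((q - 11) * (q - 11)) ≤ 4 * (q * (q - 2)) := by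
    have h7 : (q - 3) * ((q - 11) * (q - 11)) ≤ (4 * (MM F).card) * ((q - 11) * (q - 11)) :=
      mul_le_mul_of_nonneg_right (by linarith) (mul_self_nonneg _)
    linarith
  obtain ⟨t, ht⟩ : ∃ t : ℤ, q = 23 + t := ⟨q - 23, by ring⟩
  have ht0 : 0 ≤ t := by linarith
  rw [ht] at h6
  nlinarith [mul_nonneg ht0 ht0, mul_nonneg ht0 (mul_nonneg ht0 ht0)]

/-- from a good `m` to the data -/
theorem par_of_good (hF : ringChar F ≠ 2) {m : F} (hm : m ∈ MM F) (hN : 5 ≤ (NN m).card) :
    Nonempty (Par F) := by
  classical
  obtain ⟨n, hn⟩ := quadraticChar_exists_neg_one hF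
  have hmem : ∀ x : F, x ∈ NN m ↔ quadraticChar F x * quadraticChar F (x - 1)
      * quadraticChar F (x - m) = - quadraticChar F (-1) := by
    intro x
    rw [NN, Finset.mem_filter, uu]
    exact ⟨fun h => h.2, fun h => ⟨Finset.mem_univ _, h⟩⟩
  have hmaps : ∀ x ∈ NN m, (quadraticChar F x, quadraticChar F (x - 1)) ∈
      (({1, -1} : Finset ℤ) ×ˢ ({1, -1} : Finset ℤ)) := by
    intro x hx
    rw [hmem] at hx
    have hnu : - quadraticChar F (-1 : F) ≠ 0 := by
      rcases nu_cases (F := F) with h | h <;> rw [h] <;> norm_num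
    have h0 : x ≠ 0 := by
      intro h
      rw [h, quadraticChar_zero, zero_mul, zero_mul] at hx
      exact hnu hx.symm
    have h1 : x - 1 ≠ 0 := by
      intro h
      rw [h, quadraticChar_zero, mul_zero, zero_mul] at hx
      exact hnu hx.symm
    simp only [Finset.mem_product, Finset.mem_insert, Finset.mem_singleton]
    exact ⟨quadraticChar_dichotomy h0, quadraticChar_dichotomy h1⟩
  have hcard : (({1, -1} : Finset ℤ) ×ˢ ({1, -1} : Finset ℤ)).card < (NN m).card := by
    rw [Finset.card_product]
    have : ({1, -1} : Finset ℤ).card = 2 := by decide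
    rw [this]; omega
  obtain ⟨x0, hx0, x1, hx1, hne, heq⟩ :=
    Finset.exists_ne_map_eq_of_card_lt_of_maps_to hcard hmaps
  rw [Prod.mk.injEq] at heq
  have m0 := hmaps x0 hx0
  simp only [Finset.mem_product, Finset.mem_insert, Finset.mem_singleton] at m0
  rw [hmem] at hx0 hx1
  rw [MM, Finset.mem_filter] at hm
  replace hm := hm.2
  have hZ : quadraticChar F (x1 - m) = quadraticChar F (x0 - m) := by
    rw [← heq.1, ← heq.2] at hx1
    have h3 := hx1.trans hx0.symm
    rcases m0.1 with e1 | e1 <;> rcases m0.2 with e2 | e2 <;> rw [e1, e2] at h3 <;> linarith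
  exact ⟨{ m := m, x := fun b => bif b then x1 else x0, n := n,
           X := quadraticChar F x0, Y := quadraticChar F (x0 - 1), Z := quadraticChar F (x0 - m),
           hne := by simpa using hne
           hn := hn, hm := hm.1, hm1 := hm.2
           hX := by intro b; cases b <;> simp [heq.1]
           hY := by intro b; cases b <;> simp [heq.2]
           hZ := by intro b; cases b <;> simp [hZ]
           hXYZ := hx0 }⟩

theorem goal_large (hF : ringChar F ≠ 2) (hq : 23 ≤ Fintype.card F) : Goal (Fintype.card F) := by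
  obtain ⟨m, hm, hN⟩ := exists_good hF hq
  obtain ⟨P⟩ := par_of_good hF hm hN
  exact goal_of_par P

end Pool.Agent.H735R3
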