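import Mathlib
import Pool.Agent.H735R3.Exist
import Pool.Agent.H735R3.Tables

set_option autoImplicit false

namespace Pool.Agent.H735R3

open Finset

instance fact11 : Fact (Nat.Prime 11) := ⟨by norm_num⟩
instance fact13 : Fact (Nat.Prime 13) := ⟨by norm_num⟩
instance fact17 : Fact (Nat.Prime 17) := ⟨by norm_num⟩
instance fact19 : Fact (Nat.Prime 19) := ⟨by norm_num⟩

theorem qc_eval {p : ℕ} [Fact (Nat.Prime p)] (hp : ringChar (ZMod p) ≠ 2) (a : ZMod p) (e : ℤ)
    (he : (if a = 0 then (0 : ℤ) else if a ^ (Fintype.card (ZMod p) / 2) = 1 then 1 else -1) = e) :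
    quadraticChar (ZMod p) a = e := by
  rw [← he]
  by_cases h : a = 0
  · rw [if_pos h, h, quadraticChar_zero]
  · rw [if_neg h]
    exact quadraticChar_eq_pow_of_char_ne_two hp h

theorem rc {p : ℕ} [hp : Fact (Nat.Prime p)] (h : p ≠ 2) : ringChar (ZMod p) ≠ 2 := by
  rw [ZMod.ringChar_zmod_n]; exact h

/-- parameters over a prime field from their values -/
theorem par_prime {p : ℕ} [hp : Fact (Nat.Prime p)] (h2 : p ≠ 2) (m x0 x1 n : ZMod p)
    (X Y Z : ℤ) (hne : x0 ≠ x1) (e : ZMod p → ℤ)
    (he : ∀ a : ZMod p, (if a = 0 then (0 : ℤ) else if a ^ (p / 2) = 1 then 1 else -1) = e a)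
    (hn : e n = -1) (hm : e m = 1) (hm1 : e (1 - m) = -1)
    (hX0 : e x0 = X) (hX1 : e x1 = X) (hY0 : e (x0 - 1) = Y) (hY1 : e (x1 - 1) = Y)
    (hZ0 : e (x0 - m) = Z) (hZ1 : e (x1 - m) = Z) (hXYZ : X * Y * Z = - e (-1)) :
    Goal p := by
  have key : ∀ a : ZMod p, quadraticChar (ZMod p) a = e a := by
    intro a
    refine qc_eval (rc h2) a _ ?_
    rw [ZMod.card]; exact he a
  have h := goal_of_par (F := ZMod p)
    { m := m, x := fun b => bif b then x1 else x0, n := n, X := X, Y := Y, Z := Z,
      hne := by simpa using hne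
      hn := by rw [key, hn]
      hm := by rw [key, hm]
      hm1 := by rw [key, hm1]
      hX := by intro b; rw [key]; cases b; exacts [hX0, hX1]
      hY := by intro b; rw [key]; cases b; exacts [hY0, hY1]
      hZ := by intro b; rw [key]; cases b; exacts [hZ0, hZ1]
      hXYZ := by rw [key, hXYZ] }
  rwa [ZMod.card] at h

def chiF (p : ℕ) (a : ZMod p) : ℤ := if a = 0 then 0 else if a ^ (p / 2) = 1 then 1 else -1

theorem goal_eleven : Goal 11 :=
  par_prime (p := 11) (by norm_num) 4 6 10 2 (-1) 1 (-1) (by decide) (chiF 11) (fun _ => rfl)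
    (by decide) (by decide) (by decide) (by decide) (by decide) (by decide) (by decide)
    (by decide) (by decide) (by decide)

theorem goal_thirteen : Goal 13 :=
  par_prime (p := 13) (by norm_num) 12 2 11 2 (-1) 1 1 (by decide) (chiF 13)
    (fun _ => rfl) (by decide) (by decide) (by decide) (by decide) (by decide) (by decide)
    (by decide) (by decide) (by decide) (by decide)

theorem goal_seventeen : Goal 17 :=
  par_prime (p := 17) (by norm_num) 4 3 5 3 (-1) 1 1 (by decide) (chiF 17)
    (fun _ => rfl) (by decide) (by decide) (by decide) (by decide) (by decide) (by decide)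
    (by decide) (by decide) (by decide) (by decide)

theorem goal_nineteen : Goal 19 :=
  par_prime (p := 19) (by norm_num) 5 3 14 2 (-1) (-1) 1 (by decide) (chiF 19)
    (fun _ => rfl) (by decide) (by decide) (by decide) (by decide) (by decide) (by decide)
    (by decide) (by decide) (by decide) (by decide)

end Pool.Agent.H735R3
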