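import Mathlib
import Pool.Agent.H735R3.Small

set_option autoImplicit false

namespace Pool.Agent.H735R3

open Finset

theorem not_pp_of_two {a b p k : ℕ} (ha : a.Prime) (hb : b.Prime) (hab : a ≠ b) (hp : p.Prime)
    (h1 : a ∣ p ^ k) (h2 : b ∣ p ^ k) : False := by
  have e1 := (Nat.prime_dvd_prime_iff_eq ha hp).1 (ha.dvd_of_dvd_pow h1)
  have e2 := (Nat.prime_dvd_prime_iff_eq hb hp).1 (hb.dvd_of_dvd_pow h2)
  exact hab (e1.trans e2.symm)

theorem goal_of_ne_five (s : ℕ) (hs : IsPrimePow s) (h5 : s ≠ 5) : Goal s := by
  classical
  rw [isPrimePow_nat_iff] at hs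
  obtain ⟨p, k, hp, hk, rfl⟩ := hs
  by_cases h2 : p = 2
  · subst h2; exact goal_two_pow k
  by_cases hbig : 23 ≤ p ^ k
  · have : Fact (Nat.Prime p) := ⟨hp⟩
    let K := GaloisField p k
    have : Finite K := inferInstance
    letI : Fintype K := Fintype.ofFinite K
    letI : DecidableEq K := Classical.decEq K
    have hK : Fintype.card K = p ^ k := by
      rw [← Nat.card_eq_fintype_card]; exact GaloisField.card p k hk.ne'
    have hF : ringChar K ≠ 2 := by
      have : ringChar K = p := by
        have h3 : CharP K p := inferInstance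
        exact ringChar.eq K p
      rw [this]; exact h2
    have h := goal_large (F := K) hF (by rw [hK]; exact hbig)
    rwa [hK] at h
  · push Not at hbig
    have hodd : ¬ 2 ∣ p ^ k := by
      intro h
      have := (Nat.prime_dvd_prime_iff_eq Nat.prime_two hp).1 (Nat.prime_two.dvd_of_dvd_pow h)
      exact h2 this.symm
    have hne1 : p ^ k ≠ 1 := by
      intro h
      rcases Nat.pow_eq_one.1 h with h | h
      · exact hp.one_lt.ne' h
      · omega
    have h15 : p ^ k ≠ 15 := by
      intro h
      exact not_pp_of_two (a := 3) (b := 5) (by norm_num) (by norm_num) (by norm_num) hp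
        (by rw [h]; norm_num) (by rw [h]; norm_num)
    have h21 : p ^ k ≠ 21 := by
      intro h
      exact not_pp_of_two (a := 3) (b := 7) (by norm_num) (by norm_num) (by norm_num) hp
        (by rw [h]; norm_num) (by rw [h]; norm_num)
    generalize p ^ k = s at *
    interval_cases s <;> first
      | exact goal_three | exact goal_seven | exact goal_nine | exact goal_eleven
      | exact goal_thirteen | exact goal_seventeen | exact goal_nineteen
      | (exfalso; omega)

end Pool.Agent.H735R3
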